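import Pool.Agent.Helper62.GamFinal

/-!
Two-sided gamma positivity of the type B two-sided Eulerian polynomials of the even and of the odd
signed permutations, for every even `n`. The definitions are in `Pool/Agent/Helper62/GamDefs.lean`.
-/

set_option autoImplicit false

namespace Pool.Agent.Results.MP_12caf3_co.GammaPositive

open Pool.Agent.TwoSidedGamma

theorem result : ∀ n : ℕ, 0 < n → Even n → ∀ ε : ℤ, (ε = 1 ∨ ε = -1) →
    ∃ γ : ℕ → ℕ → ℝ, (∀ i j, 0 ≤ γ i j) ∧
      ∀ s t : ℝ, TSB n ε s t =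
        ∑ i ∈ Finset.range (n / 2 + 1), ∑ j ∈ Finset.range (n - 2 * i + 1),
          γ i j * (s * t) ^ i * (s + t) ^ j * (1 + s * t) ^ (n - 2 * i - j) :=
  fun n _ hn ε hε => main n hn ε hε

end Pool.Agent.Results.MP_12caf3_co.GammaPositive
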